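import Pool.Agent.X252.AF

/-!
# Analytic rank zero over a positive proportion of the abelian extensions of a given field

`E_i : y² = x³ + a_i x + b_i` (`i = 1, …, m`) are elliptic curves over `ℚ`, given with their newforms
`f_i`, and `l` is a prime.  A prime `q` is admissible if `q ∤ 2Δ_i` and `l ∤ #E_i(ℤ/q)` for all `i`.
Let `G` be a finite group of Dirichlet characters of order dividing `l ^ n` and of squarefree
conductors composed of admissible primes, with `L(f_i, χ, 1) ≠ 0` for all `χ ∈ G` and all `i` (`G = 1`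
if `L(E_i, 1) ≠ 0`).  For characters `c = (c_1, …, c_r)` let `ℚ(G, c)` be the abelian extension of `ℚ`
attached to the group generated by `G` and the `c_j`; the tuple is called good if for all subfields `F`
of `ℚ(G, c)` and all `i` the Hasse-Weil `L`-function `L(E_i/F, s)` is entire and does not vanish at
`s = 1`.

Theorem: there is a number `V` which depends only on the curves, on `l ^ n`, `r` and `G` such that for
every group `H ⊇ G` of Dirichlet characters of order dividing `l ^ n` and of squarefree conductors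
composed of admissible primes the following holds.

* There are at most `2 ^ V` tuples `k` in `H ^ r` such that every tuple `c` in `H ^ r` has a good
  translate `c k`.
* If `H` is finite, then at least `|H| ^ r / 2 ^ V` of the tuples in `H ^ r` are good.
* In general, with a constant `B` which depends on `H`, the number of the good tuples in `H ^ r` with
  conductors at most `B X` is at least `2 ^ (-V)` times the number of all tuples with conductors at
  most `X`.

By Kato's theorem the groups `CH^1(E_i)_0 = E_i(F)` are finite for the subfields `F` of `ℚ(G, c)`, `c`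
good, so that Beilinson's conjecture holds for the curves `X = E_i` over these fields (both sides are
`0`).  The hypotheses hold for `X_0(11)`.

The proof combines the machinery of the earlier library (`Pool.Agent.Y18.LP`: finite differences of
functions on groups of exponent `l ^ n` and Krull's intersection theorem) with the nonvanishing of the
Gauss sums; the case `G = 1` of the first part is its theorem `Pool.Agent.Y18.LP.fields`.
-/

set_option autoImplicit false

open Complex UpperHalfPlane MatrixGroups CongruenceSubgroup NumberField IsDedekindDomain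

namespace Pool.Agent.Results.MP_6dc9d1_nt.AbelianFields

/-- `N_p`: the number of pairs `(x, y) ∈ (ℤ/p)²` with `y² = x³ + a x + b`. -/
noncomputable def pointCount (a b : ℤ) (p : ℕ) : ℕ :=
  Nat.card {q : ZMod p × ZMod p // q.2 ^ 2 = q.1 ^ 3 + (a : ZMod p) * q.1 + (b : ZMod p)}

/-- `p` is a prime not dividing `2 Δ`, `Δ = -4 a³ - 27 b²`. -/
def GoodPrime (a b : ℤ) (p : ℕ) : Prop :=
  p.Prime ∧ ¬ ((p : ℤ) ∣ 2 * (-4 * a ^ 3 - 27 * b ^ 2))

open Classical in
/-- `L(E, 1) ≠ 0` for `E : y² = x³ + a x + b`: there is an entire function `F` which for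
`Re s > 3/2` is the incomplete L-series `∏_{p ∤ 2Δ} (1 - a_p p^{-s} + p^{1-2s})⁻¹`, `a_p = p - N_p`,
of `E` over `ℚ`, and `F(1) ≠ 0`. -/
def AnalyticRankZero (a b : ℤ) : Prop :=
  ∃ F : ℂ → ℂ, (Differentiable ℂ F ∧ ∀ s : ℂ, (3 : ℝ) / 2 < s.re →
    HasProd (fun p : ℕ => if GoodPrime a b p then
      (1 - ((p : ℂ) - (pointCount a b p : ℂ)) * (p : ℂ) ^ (-s) + (p : ℂ) ^ (1 - 2 * s))⁻¹ else 1)
      (F s)) ∧ F 1 ≠ 0

/-- `q` is a prime, `q ∤ 2 Δ`, and `l` does not divide the number `N_q + 1` of the points of `E` over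
`ℤ/q` (with the point at infinity). -/
def Admissible (a b : ℤ) (l q : ℕ) : Prop := GoodPrime a b q ∧ ¬ l ∣ pointCount a b q + 1

/-- The families `c = (c_q)` of characters `c_q` of the groups `(ℤ/q)ˣ`.  The family with `c_q = 1`
except for the primes `q` of a finite set stands for the Dirichlet character `χ_c = ∏ c_q` of
squarefree conductor; this is an isomorphism of groups. -/
abbrev Fam : Type := (q : ℕ) → (ZMod q)ˣ →* ℂˣ

open Classical in
/-- The set of the `q` with `c_q ≠ 1` (if it is finite). -/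
noncomputable def supp (c : Fam) : Finset ℕ :=
  if h : {q | c q ≠ 1}.Finite then h.toFinset else ∅

/-- The conductor of `χ_c`. -/
noncomputable def conductor (c : Fam) : ℕ := ∏ q ∈ supp c, q

/-- The value `χ_c(m)`. -/
noncomputable def value (c : Fam) (m : ℕ) : ℂ :=
  ∏ q ∈ supp c, if h : m.Coprime q then (c q (ZMod.unitOfCoprime m h) : ℂ) else 0

open Classical in
/-- The Gaussian period `∑ exp(2 π i u / M)`, `0 ≤ u < M`, `χ_c(u) = 1`, where `M` is the conductor of
`χ_c`.  It generates the cyclic extension of `ℚ` attached to `χ_c` (the subfield of `ℚ(exp(2 π i / M))`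
fixed by the kernel of `χ_c`; recall that `M` is squarefree). -/
noncomputable def period (c : Fam) : ℂ :=
  ∑ u ∈ (Finset.range (conductor c)).filter (fun u => value c u = 1),
    Complex.exp (2 * Real.pi * Complex.I / (conductor c : ℕ)) ^ u

/-- `H` is a group of Dirichlet characters of order dividing `l ^ n` and of squarefree conductors
composed of primes admissible for all the curves. -/
structure IsCharGroup {m : ℕ} (a b : Fin m → ℤ) (l n : ℕ) (H : Subgroup Fam) : Prop where
  pow : ∀ c ∈ H, c ^ (l ^ n) = 1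
  finite : ∀ c ∈ H, {q | c q ≠ 1}.Finite
  admissible : ∀ c ∈ H, ∀ q, c q ≠ 1 → q.Prime ∧ ∀ i, Admissible (a i) (b i) l q

/-- The `n`-th Fourier coefficient of `f`. -/
noncomputable def coef {N : ℕ} (f : CuspForm (Gamma0 N : Subgroup (GL (Fin 2) ℝ)) 2) (n : ℕ) : ℂ :=
  (qExpansion 1 f).coeff n

/-- `f ∈ S_2(Γ₀(N))` is the newform of the elliptic curve `E : y² = x³ + a x + b`, with its standard
properties: the Fourier coefficients `c(n)` of `f` are real with `c(1) = 1`, they satisfy the Hecke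
relations `c(mn) = c(m) c(n)` for coprime `m`, `n` and `c(p^(j+2)) = c(p) c(p^(j+1)) - p c(p^j)`
(without the last term if `p ∣ N`) and the bounds `|c(p)| ≤ 2√p` for `p ∤ N`, `|c(p)| ≤ 1` for
`p ∣ N`; `f` is an eigenfunction of the Fricke involution: `f(-1/(Nτ)) = -w N τ² f(τ)` with `w = ±1`;
for all primes `p ∤ 2Δ` one has `p ∤ N` and `c(p) = a_p(E)`.  (Every elliptic curve over `ℚ` has such a
form by the modularity theorem.) -/
structure IsFormOf (a b : ℤ) (N : ℕ) (f : CuspForm (Gamma0 N : Subgroup (GL (Fin 2) ℝ)) 2) :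
    Prop where
  one : coef f 1 = 1
  real : ∀ n, (coef f n).im = 0
  mul : ∀ m n : ℕ, Nat.Coprime m n → coef f (m * n) = coef f m * coef f n
  pow : ∀ p j : ℕ, p.Prime → coef f (p ^ (j + 2)) = coef f p * coef f (p ^ (j + 1)) -
      (if p ∣ N then 0 else (p : ℂ) * coef f (p ^ j))
  good : ∀ p : ℕ, p.Prime → ¬ p ∣ N → ‖coef f p‖ ≤ 2 * Real.sqrt p
  bad : ∀ p : ℕ, p.Prime → p ∣ N → ‖coef f p‖ ≤ 1
  fricke : ∃ w : ℝ, (w = 1 ∨ w = -1) ∧ ∀ τ τ' : ℍ, (τ' : ℂ) * ((N : ℂ) * (τ : ℂ)) = -1 →
    f τ' = -(w : ℂ) * (N : ℂ) * (τ : ℂ) ^ 2 * f τ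
  points : ∀ p : ℕ, GoodPrime a b p → ¬ p ∣ N ∧ coef f p = (p : ℂ) - (pointCount a b p : ℂ)

/-- `pw t u n = α ^ n + β ^ n`, where `α`, `β` are the roots of `X² - t X + u`. -/
noncomputable def pw (t u : ℂ) : ℕ → ℂ
  | 0 => 2
  | 1 => t
  | n + 2 => t * pw t u (n + 1) - u * pw t u n

section
variable {F : Type} [Field F] [NumberField F]

/-- The number `a_v` of `E : y² = x³ + a x + b` at a finite place `v` of `F`: `Nv` minus the number of
affine solutions `(x, y)` of the equation over the residue field `𝓞 F / v`. -/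
noncomputable def av (a b : ℤ) (v : HeightOneSpectrum (𝓞 F)) : ℤ :=
  ((Ideal.absNorm v.asIdeal : ℕ) : ℤ) -
    ((Nat.card {x : (𝓞 F ⧸ v.asIdeal) × (𝓞 F ⧸ v.asIdeal) //
      x.2 ^ 2 = x.1 ^ 3 + (a : 𝓞 F ⧸ v.asIdeal) * x.1 + (b : 𝓞 F ⧸ v.asIdeal)} : ℕ) : ℤ)

open Classical in
/-- The Euler factor of `L(E/F, s)` at the finite place `v` of `F`.  If `v ∤ 2 Δ`, it is
`(1 - a_v (Nv)^(-s) + (Nv)^(1-2s))⁻¹`.  If `v ∣ 2 Δ` and `Nv = p ^ d` with `p` prime, it is
`(1 - (α^d + β^d) (Nv)^(-s) + (Nv)^(1-2s))⁻¹` for `p ∤ N`, where `α`, `β` are the roots of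
`X² - c(p) X + p`, and `(1 - c(p)^d (Nv)^(-s))⁻¹` for `p ∣ N`.  (The primes `p ∣ 2 Δ` will be
unramified in `F`, so that this is the Hasse-Weil factor.) -/
noncomputable def factor (a b : ℤ) {N : ℕ} (f : CuspForm (Gamma0 N : Subgroup (GL (Fin 2) ℝ)) 2)
    (s : ℂ) (v : HeightOneSpectrum (𝓞 F)) : ℂ :=
  if ((2 * (4 * a ^ 3 + 27 * b ^ 2) : ℤ) : 𝓞 F) ∈ v.asIdeal then
    (1 - pw (coef f (Ideal.absNorm v.asIdeal).minFac)
          (if (Ideal.absNorm v.asIdeal).minFac ∣ N then 0 else ((Ideal.absNorm v.asIdeal).minFac : ℂ))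
          ((Ideal.absNorm v.asIdeal).factorization (Ideal.absNorm v.asIdeal).minFac)
          * ((Ideal.absNorm v.asIdeal : ℕ) : ℂ) ^ (-s)
      + (if (Ideal.absNorm v.asIdeal).minFac ∣ N then (0 : ℂ) else
          ((Ideal.absNorm v.asIdeal : ℕ) : ℂ) ^ (1 - 2 * s)))⁻¹
  else
    (1 - ((av a b v : ℤ) : ℂ) * ((Ideal.absNorm v.asIdeal : ℕ) : ℂ) ^ (-s)
      + ((Ideal.absNorm v.asIdeal : ℕ) : ℂ) ^ (1 - 2 * s))⁻¹

end

/-- `L(E/F, s)` is entire and `L(E/F, 1) ≠ 0`, for the number field `F ⊂ ℂ` and the elliptic curve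
`E : y² = x³ + a x + b` with newform `f`: there is an entire function `G` which for `Re s > 3/2` is the
Euler product of `E` over all finite places of `F`, and `G(1) ≠ 0`. -/
def NonvanishingOver (F : IntermediateField ℚ ℂ) [NumberField F] (a b : ℤ) {N : ℕ}
    (f : CuspForm (Gamma0 N : Subgroup (GL (Fin 2) ℝ)) 2) : Prop :=
  ∃ G : ℂ → ℂ, Differentiable ℂ G ∧
    (∀ s : ℂ, 3 / 2 < s.re → HasProd (fun v : HeightOneSpectrum (𝓞 F) => factor a b f s v) (G s)) ∧
    G 1 ≠ 0

theorem pw_eq (t u : ℂ) : ∀ n : ℕ, pw t u n = W165.CE.pw t u n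
  | 0 => rfl
  | 1 => rfl
  | n + 2 => by rw [pw, W165.CE.pw, pw_eq t u (n + 1), pw_eq t u n]

theorem factor_eq {F : Type} [Field F] [NumberField F] (a b : ℤ) {N : ℕ}
    (f : CuspForm (Gamma0 N : Subgroup (GL (Fin 2) ℝ)) 2) (s : ℂ) (v : HeightOneSpectrum (𝓞 F)) :
    factor a b f s v = W165.CE.fac a b N (Pool.Agent.Y18.BSD.co f) s v := by
  unfold factor W165.CE.fac
  rw [pw_eq]
  rfl

theorem nonvanishing_of {F : IntermediateField ℚ ℂ} [NumberField F] {a b : ℤ} {N : ℕ}
    {f : CuspForm (Gamma0 N : Subgroup (GL (Fin 2) ℝ)) 2} (h : Pool.Agent.Y18.NF.RZ F a b f) :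
    NonvanishingOver F a b f := by
  obtain ⟨G, h1, h2, h3⟩ := h
  refine ⟨G, h1, fun s hs => ?_, h3⟩
  refine (congrArg (fun g => HasProd g (G s)) (funext fun v => ?_)).mp (h2 s hs)
  exact (factor_eq a b f s v).symm


/-- `L(f, χ_c, s)` is entire and `L(f, χ_c, 1) ≠ 0`: there is an entire function `G` which for
`Re s > 3/2` is the Euler product `∏_p (1 - χ_c(p) c(p) p^(-s) + χ_c(p)² p^(1-2s))⁻¹` (without the last
term if `p ∣ N`), and `G(1) ≠ 0`. -/
def TwistNonvanishing {N : ℕ} (f : CuspForm (Gamma0 N : Subgroup (GL (Fin 2) ℝ)) 2) (c : Fam) :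
    Prop :=
  ∃ G : ℂ → ℂ, Differentiable ℂ G ∧ (∀ s : ℂ, 3 / 2 < s.re →
      HasProd (fun p : Nat.Primes => (1 - value c p * coef f p * ((p : ℕ) : ℂ) ^ (-s) +
        value c p ^ 2 * ((if (p : ℕ) ∣ N then 0 else ((p : ℕ) : ℂ)) *
          (((p : ℕ) : ℂ) ^ (-s)) ^ 2))⁻¹) (G s)) ∧ G 1 ≠ 0

/-- The tuple `c` of characters is good over `G`, for the curves: for all number fields `F ⊂ ℂ`
contained in the field generated by the Gaussian periods of the characters in the group generated by
`G` and the `c j`, the function `L(E_i/F, s)` is entire with `L(E_i/F, 1) ≠ 0` for all `i`. -/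
def Good {m : ℕ} (a b : Fin m → ℤ) {N : Fin m → ℕ}
    (f : (i : Fin m) → CuspForm (Gamma0 (N i) : Subgroup (GL (Fin 2) ℝ)) 2) (G : Subgroup Fam)
    {r : ℕ} (c : Fin r → Fam) : Prop :=
  ∀ (F : IntermediateField ℚ ℂ) [NumberField F],
    F ≤ IntermediateField.adjoin ℚ
      {x : ℂ | ∃ χ ∈ G ⊔ Subgroup.closure (Set.range c), x = period χ} →
    ∀ i, NonvanishingOver F (a i) (b i) (f i)

theorem supp_mul (c k : Fam) (hc : {q | c q ≠ 1}.Finite) (hk : {q | k q ≠ 1}.Finite) :
    supp (c * k) ⊆ supp c ∪ supp k := by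
  classical
  intro q hq
  have hck : {q | (c * k) q ≠ 1}.Finite := by
    refine (hc.union hk).subset ?_
    intro q hq
    by_contra h
    rw [Set.mem_union, not_or] at h
    have h1 : c q = 1 := not_not.1 h.1
    have h2 : k q = 1 := not_not.1 h.2
    exact hq (by rw [Pi.mul_apply, h1, h2]; ext u; simp)
  unfold supp at hq ⊢
  rw [dif_pos hck, Set.Finite.mem_toFinset] at hq
  rw [dif_pos hc, dif_pos hk, Finset.mem_union, Set.Finite.mem_toFinset, Set.Finite.mem_toFinset]
  by_contra h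
  rw [not_or] at h
  have h1 : c q = 1 := not_not.1 h.1
  have h2 : k q = 1 := not_not.1 h.2
  exact hq (by rw [Pi.mul_apply, h1, h2]; ext u; simp)

theorem conductor_pos (c : Fam) (h : ∀ q, c q ≠ 1 → q.Prime) : 0 < conductor c := by
  classical
  unfold conductor
  apply Finset.prod_pos
  intro q hq
  unfold supp at hq
  split_ifs at hq with hf
  · rw [Set.Finite.mem_toFinset] at hq
    exact (h q hq).pos
  · exact absurd hq (Finset.notMem_empty q)

theorem prime_of_mem_supp {c : Fam} (h : ∀ q, c q ≠ 1 → q.Prime) {q : ℕ} (hq : q ∈ supp c) :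
    q.Prime := by
  classical
  unfold supp at hq
  split_ifs at hq with hf
  · rw [Set.Finite.mem_toFinset] at hq
    exact h q hq
  · exact absurd hq (Finset.notMem_empty q)

theorem conductor_mul (c k : Fam) (hc : {q | c q ≠ 1}.Finite) (hk : {q | k q ≠ 1}.Finite)
    (hc' : ∀ q, c q ≠ 1 → q.Prime) (hk' : ∀ q, k q ≠ 1 → q.Prime) :
    conductor (c * k) ≤ conductor c * conductor k := by
  classical
  have h1 : ∀ q ∈ supp c ∪ supp k, 1 ≤ q := by
    intro q hq
    rcases Finset.mem_union.1 hq with h | h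
    · exact (prime_of_mem_supp hc' h).one_le
    · exact (prime_of_mem_supp hk' h).one_le
  calc conductor (c * k) ≤ ∏ q ∈ supp c ∪ supp k, q :=
        Finset.prod_le_prod_of_subset_of_one_le' (supp_mul c k hc hk) (fun q hq _ => h1 q hq)
    _ ≤ (∏ q ∈ supp c ∪ supp k, q) * ∏ q ∈ supp c ∩ supp k, q := by
        refine Nat.le_mul_of_pos_right _ (Finset.prod_pos fun q hq => ?_)
        exact (prime_of_mem_supp hc' (Finset.mem_inter.1 hq).1).pos
    _ = conductor c * conductor k := Finset.prod_union_inter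

/-- Abstract counting: if every element of `A` has a translate by one of at most `n` elements in
`B`, then `#A ≤ n #B`. -/
theorem encard_le {G : Type} [Group G] (A B : Set G) (K : Finset G) {n : ℕ} (hK : K.card ≤ n)
    (h : ∀ c ∈ A, ∃ k ∈ K, c * k ∈ B) : A.encard ≤ n * B.encard := by
  classical
  have h1 : A ⊆ ⋃ k ∈ K, (fun x => x * k⁻¹) '' B := by
    intro c hc
    obtain ⟨k, hk, hB⟩ := h c hc
    simp only [Set.mem_iUnion]
    exact ⟨k, hk, c * k, hB, mul_inv_cancel_right c k⟩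
  have h2 : ∀ K : Finset G, (⋃ k ∈ K, (fun x => x * k⁻¹) '' B).encard ≤ K.card * B.encard := by
    intro K
    induction K using Finset.induction_on with
    | empty => simp
    | insert k K hk ih =>
      rw [Finset.set_biUnion_insert, Finset.card_insert_of_notMem hk]
      refine (Set.encard_union_le _ _).trans ?_
      have h3 : ((fun x => x * k⁻¹) '' B).encard ≤ B.encard := Set.encard_image_le _ _
      push_cast
      rw [add_mul, one_mul, add_comm]
      exact add_le_add ih h3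
  refine (Set.encard_le_encard h1).trans ((h2 K).trans ?_)
  gcongr

theorem card_tuples (H : Subgroup Fam) (r : ℕ) :
    {c : Fin r → Fam | ∀ j, c j ∈ H}.ncard = Nat.card H ^ r := by
  have e : {c : Fin r → Fam // ∀ j, c j ∈ H} ≃ (Fin r → H) := Equiv.subtypePiEquivPi
  have h1 : {c : Fin r → Fam | ∀ j, c j ∈ H}.ncard =
      Nat.card {c : Fin r → Fam // ∀ j, c j ∈ H} := rfl
  rw [h1, Nat.card_congr e, Nat.card_fun, Nat.card_fin]

/-- **Theorem.** (1) Let `E_i : y² = x³ + a_i x + b_i`, `i = 1, …, m`, be elliptic curves over `ℚ` with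
newforms `f_i`, `l` a prime, `n`, `r` integers, and `G` a finite group of Dirichlet characters of order
dividing `l ^ n` and of squarefree conductors composed of primes `q ∤ 2 Δ_i` with `l ∤ #E_i(ℤ/q)`, such
that `L(f_i, χ, 1) ≠ 0` for all `χ ∈ G` and all `i`. There is a `V` such that for every group `H ⊇ G`
of Dirichlet characters of this kind:

* there is a set `K` of at most `2 ^ V` tuples in `H ^ r` such that for every `c ∈ H ^ r` there is a
  `k ∈ K` with `c k` good over `G`;
* if `H` is finite, then at least `|H| ^ r / 2 ^ V` tuples in `H ^ r` are good over `G`;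
* there is a `B` such that for all `X` the number of tuples in `H ^ r` with conductors at most `X` is at
  most `2 ^ V` times the number of the good tuples in `H ^ r` with conductors at most `B X`.

(2) If `L(E, 1) ≠ 0`, then `L(f, 1) ≠ 0` (so that `G = 1` is allowed). The curve
`X_0(11) : y² = x³ - 13392 x - 1080432` has a newform `f`, of level 11, and `L(f, 1) ≠ 0`. -/
theorem result :
    (∀ (m : ℕ) (a b : Fin m → ℤ), (∀ i, 4 * a i ^ 3 + 27 * b i ^ 2 ≠ 0) →
      ∀ N : Fin m → ℕ, (∀ i, N i ≠ 0) →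
      ∀ f : (i : Fin m) → CuspForm (Gamma0 (N i) : Subgroup (GL (Fin 2) ℝ)) 2,
      (∀ i, IsFormOf (a i) (b i) (N i) (f i)) →
      ∀ l n r : ℕ, l.Prime →
      ∀ G : Subgroup Fam, IsCharGroup a b l n G → (G : Set Fam).Finite →
        (∀ χ ∈ G, ∀ i, TwistNonvanishing (f i) χ) →
      ∃ V : ℕ, ∀ H : Subgroup Fam, IsCharGroup a b l n H → G ≤ H →
        (∃ K : Finset (Fin r → Fam), K.card ≤ 2 ^ V ∧ (∀ k ∈ K, ∀ j, k j ∈ H) ∧
          ∀ c : Fin r → Fam, (∀ j, c j ∈ H) → ∃ k ∈ K, Good a b f G (c * k)) ∧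
        ((H : Set Fam).Finite → Nat.card H ^ r ≤
          2 ^ V * {c : Fin r → Fam | (∀ j, c j ∈ H) ∧ Good a b f G c}.ncard) ∧
        ∃ B : ℕ, ∀ X : ℕ, {c : Fin r → Fam | ∀ j, c j ∈ H ∧ conductor (c j) ≤ X}.encard ≤
          2 ^ V * {c : Fin r → Fam |
            (∀ j, c j ∈ H ∧ conductor (c j) ≤ B * X) ∧ Good a b f G c}.encard) ∧
    (∀ (a b : ℤ), 4 * a ^ 3 + 27 * b ^ 2 ≠ 0 → ∀ N : ℕ, N ≠ 0 →
      ∀ f : CuspForm (Gamma0 N : Subgroup (GL (Fin 2) ℝ)) 2, IsFormOf a b N f →
      AnalyticRankZero a b → TwistNonvanishing f 1) ∧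
    (∃ f : CuspForm (Gamma0 11 : Subgroup (GL (Fin 2) ℝ)) 2,
      IsFormOf (-13392) (-1080432) 11 f ∧ TwistNonvanishing f 1) := by
  classical
  have hone : ∀ (a b : ℤ), 4 * a ^ 3 + 27 * b ^ 2 ≠ 0 → ∀ N : ℕ, N ≠ 0 →
      ∀ f : CuspForm (Gamma0 N : Subgroup (GL (Fin 2) ℝ)) 2, IsFormOf a b N f →
      AnalyticRankZero a b → TwistNonvanishing f 1 := by
    intro a b hΔ N hN f hf h0
    have : NeZero N := ⟨hN⟩
    exact Pool.Agent.X252.AF.tw_one (a := a) (b := b) hΔ ⟨hf.one, hf.real, hf.mul, hf.pow, hf.good,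
      hf.bad, hf.fricke, hf.points⟩ h0
  refine ⟨?_, hone, ?_⟩
  · intro m a b hΔ N hN f hf l n r hl G hG hGfin hGn
    have : ∀ i, NeZero (N i) := fun i => ⟨hN i⟩
    obtain ⟨V, hV⟩ := Pool.Agent.X252.AF.fields_rel m a b hΔ N f
      (fun i => ⟨(hf i).one, (hf i).real, (hf i).mul, (hf i).pow, (hf i).good, (hf i).bad,
        (hf i).fricke, (hf i).points⟩) l n r hl G ⟨hG.pow, hG.finite, hG.admissible⟩ hGfin hGn
    refine ⟨V, fun H hH hGH => ?_⟩
    obtain ⟨K, hK1, hK2, hK3⟩ := hV H ⟨hH.pow, hH.finite, hH.admissible⟩ hGH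
    have hK : ∀ c : Fin r → Fam, (∀ j, c j ∈ H) → ∃ k ∈ K, Good a b f G (c * k) := by
      intro c hc
      obtain ⟨k, hk, h1⟩ := hK3 c hc
      exact ⟨k, hk, fun F _ hF i => nonvanishing_of (h1 F hF i)⟩
    refine ⟨⟨K, hK1, hK2, hK⟩, fun hfin => ?_, ?_⟩
    · have h1 := encard_le {c : Fin r → Fam | ∀ j, c j ∈ H}
        {c : Fin r → Fam | (∀ j, c j ∈ H) ∧ Good a b f G c} K hK1 (fun c hc => by
          obtain ⟨k, hk, h2⟩ := hK c hc
          exact ⟨k, hk, fun j => H.mul_mem (hc j) (hK2 k hk j), h2⟩)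
      have hA : {c : Fin r → Fam | ∀ j, c j ∈ H}.Finite := by
        have : Finite H := hfin
        have e : {c : Fin r → Fam // ∀ j, c j ∈ H} ≃ (Fin r → H) := Equiv.subtypePiEquivPi
        have h3 : Finite {c : Fin r → Fam // ∀ j, c j ∈ H} := Finite.of_equiv _ e.symm
        exact h3
      have hB : {c : Fin r → Fam | (∀ j, c j ∈ H) ∧ Good a b f G c}.Finite :=
        hA.subset fun c hc => hc.1
      rw [← hA.cast_ncard_eq, ← hB.cast_ncard_eq, card_tuples] at h1
      exact_mod_cast h1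
    · refine ⟨∏ k ∈ K, ∏ j, conductor (k j), fun X => ?_⟩
      have hpos : ∀ k ∈ K, ∀ j, 0 < conductor (k j) := fun k hk j =>
        conductor_pos _ fun q hq => (hH.admissible _ (hK2 k hk j) q hq).1
      have h1 := encard_le {c : Fin r → Fam | ∀ j, c j ∈ H ∧ conductor (c j) ≤ X}
        {c : Fin r → Fam | (∀ j, c j ∈ H ∧
          conductor (c j) ≤ (∏ k ∈ K, ∏ j, conductor (k j)) * X) ∧ Good a b f G c} K hK1
        (fun c hc => by
          obtain ⟨k, hk, h2⟩ := hK c fun j => (hc j).1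
          refine ⟨k, hk, fun j => ⟨H.mul_mem (hc j).1 (hK2 k hk j), ?_⟩, h2⟩
          have h3 := conductor_mul (c j) (k j) (hH.finite _ (hc j).1) (hH.finite _ (hK2 k hk j))
            (fun q hq => (hH.admissible _ (hc j).1 q hq).1)
            (fun q hq => (hH.admissible _ (hK2 k hk j) q hq).1)
          have h4 : conductor (k j) ≤ ∏ k ∈ K, ∏ j, conductor (k j) := by
            have h5 : conductor (k j) ∣ ∏ j, conductor (k j) :=
              Finset.dvd_prod_of_mem (fun j => conductor (k j)) (Finset.mem_univ j)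
            have h6 : (∏ j, conductor (k j)) ∣ ∏ k ∈ K, ∏ j, conductor (k j) :=
              Finset.dvd_prod_of_mem (fun k : Fin r → Fam => ∏ j, conductor (k j)) hk
            exact Nat.le_of_dvd (Finset.prod_pos fun k hk => Finset.prod_pos fun j _ =>
              hpos k hk j) (h5.trans h6)
          calc conductor ((c * k) j) ≤ conductor (c j) * conductor (k j) := h3
            _ ≤ X * ∏ k ∈ K, ∏ j, conductor (k j) := Nat.mul_le_mul (hc j).2 h4
            _ = _ := mul_comm _ _)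
      push_cast at h1
      exact h1
  · have h := Pool.Agent.Y18.BSD.Eleven.isFormOf
    have h' : ∃ f : CuspForm (Gamma0 11 : Subgroup (GL (Fin 2) ℝ)) 2,
        IsFormOf (-13392) (-1080432) 11 f :=
      ⟨_, ⟨h.one, h.real, h.mul, h.pow, h.good, h.bad, h.fricke, h.points⟩⟩
    obtain ⟨f, hf⟩ := h'
    exact ⟨f, hf, hone _ _ (by norm_num) 11 (by norm_num) f hf Pool.Agent.Y18.NF.rankZero11⟩

end Pool.Agent.Results.MP_6dc9d1_nt.AbelianFields
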