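import Pool.Agent.X284.KS.Fam2

/-!
# Beilinson's conjecture over almost all cyclotomic fields: sums of motives of newforms

Let `X / ℚ` be a smooth projective variety of dimension `2i + 1` such that the semisimplification of
`H^(2i+1)(X)` is a sum of Tate twists `V(f_j)(-t_j)` of the Galois representations of newforms `f_j`
of even weights `2 m_j`, levels `N_j` and arbitrary characters, `m_j + t_j = i + 1`.  Examples:
fibre products of the universal (generalised) elliptic curves over modular curves (Kuga-Sato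
varieties), rigid Calabi-Yau threefolds, products and quotients of modular curves `X_1(N)`, ...

We consider `X` over the cyclotomic fields `K = ℚ(ζ_q)`, `q` prime to the levels.  The `L`-function
of `H^(2i+1)(X_K)` is entire, and for all `q ≤ X` but at most `C X exp(-c (log X)^(1/3))` of them its
order of vanishing at the centre `s = i + 1` is at most `C q^(3/4 + ε)`, while the degree of its
functional equation is of size `q`; on average over all `q ≤ X` the order of vanishing is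
`O(exp(-c (log X)^(1/3)))` times the degree of `K`.
-/

set_option autoImplicit false

open Complex NumberField IsDedekindDomain UpperHalfPlane MatrixGroups CongruenceSubgroup

namespace Pool.Agent.Results.MP_6dc9d1_nt.KugaSatoCyclotomic

/-- The `n`-th Fourier coefficient of `f`. -/
noncomputable def coef {N : ℕ} {k : ℤ} (f : CuspForm (Gamma1 N : Subgroup (GL (Fin 2) ℝ)) k)
    (n : ℕ) : ℂ :=
  (qExpansion 1 f).coeff n

/-- `f ∈ S_{2m}(Γ₁(N))` is a newform of level `N` with character `η`: the Fourier coefficients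
`c(n)` satisfy `c(1) = 1`, `c(ab) = c(a) c(b)` for coprime `a`, `b`,
`c(p^(j+2)) = c(p) c(p^(j+1)) - η(p) p^(2m-1) c(p^j)`; for the primes `p ∤ N`
`conj c(p) = conj η(p) c(p)` and `|c(p)| ≤ 2 p^((2m-1)/2)` (Eichler, Shimura, Deligne), for the
primes `p ∣ N` `|c(p)| ≤ p^((2m-1)/2)`; `f(γτ) = η(d) (cτ + d)^(2m) f(τ)` for
`γ = (a b; c d) ∈ Γ₀(N)`; and the Fricke involution takes `f` to a multiple of `f^c`,
`f^c(τ) = conj f(-conj τ)` (Atkin, Lehner, Li):
`f(-1/(Nτ)) = (-1)^m w N^m τ^(2m) f^c(τ)` with `|w| = 1`. -/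
structure IsNewform (m N : ℕ) (η : DirichletCharacter ℂ N)
    (f : CuspForm (Gamma1 N : Subgroup (GL (Fin 2) ℝ)) (2 * m : ℤ)) (w : ℂ) : Prop where
  one : coef f 1 = 1
  mul : ∀ a b : ℕ, Nat.Coprime a b → coef f (a * b) = coef f a * coef f b
  pow : ∀ p j : ℕ, p.Prime → coef f (p ^ (j + 2)) = coef f p * coef f (p ^ (j + 1)) -
    η (p : ZMod N) * (p : ℂ) ^ (2 * m - 1) * coef f (p ^ j)
  conj : ∀ p : ℕ, p.Prime → ¬ p ∣ N → (starRingEnd ℂ) (coef f p) =
    (starRingEnd ℂ) (η (p : ZMod N)) * coef f p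
  good : ∀ p : ℕ, p.Prime → ¬ p ∣ N → ‖coef f p‖ ≤ 2 * (p : ℝ) ^ ((2 * m - 1 : ℝ) / 2)
  bad : ∀ p : ℕ, p.Prime → p ∣ N → ‖coef f p‖ ≤ (p : ℝ) ^ ((2 * m - 1 : ℝ) / 2)
  neb : ∀ γ : SL(2, ℤ), γ ∈ Gamma0 N → ∀ τ : ℍ, f (γ • τ) = η ((γ 1 1 : ℤ) : ZMod N) *
    (((γ 1 0 : ℤ) : ℂ) * (τ : ℂ) + ((γ 1 1 : ℤ) : ℂ)) ^ (2 * m) * f τ
  norm : ‖w‖ = 1
  fricke : ∀ τ τ' τc : ℍ, (τ' : ℂ) * ((N : ℂ) * (τ : ℂ)) = -1 →
    (τc : ℂ) = -(starRingEnd ℂ) (τ : ℂ) →
    f τ' = (-1 : ℂ) ^ m * w * (N : ℂ) ^ m * (τ : ℂ) ^ (2 * m) * (starRingEnd ℂ) (f τc)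

/-- A newform `f` of even weight `2m ≥ 2`, level `N ≥ 1` and character `η`. -/
structure Newform where
  /-- the level -/
  N : ℕ
  N_ne : N ≠ 0
  /-- half of the weight -/
  m : ℕ
  m_pos : 1 ≤ m
  /-- the character -/
  η : DirichletCharacter ℂ N
  /-- the form -/
  f : CuspForm (Gamma1 N : Subgroup (GL (Fin 2) ℝ)) (2 * m : ℤ)
  /-- the constant of the Fricke involution -/
  w : ℂ
  newform : IsNewform m N η f w

/-- `pw t u n = α ^ n + β ^ n`, where `α`, `β` are the roots of `X² - t X + u`. -/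
noncomputable def pw (t u : ℂ) : ℕ → ℂ
  | 0 => 2
  | 1 => t
  | n + 2 => t * pw t u (n + 1) - u * pw t u n

/-- The determinant `η(p) p^(2m-1)` of Frobenius at `p` on the representation of `f`. -/
noncomputable def Newform.u (P : Newform) (p : ℕ) : ℂ :=
  P.η (p : ZMod P.N) * (p : ℂ) ^ (2 * P.m - 1)

/-- The local factor at the prime `v` of `K`, `Nv = p ^ d` with `p` prime, of the `L`-function of `f`
over `K` (a cyclotomic field unramified at the primes of the level):
`(1 - (α^d + β^d) (Nv)^(-s) + (αβ)^d (Nv)^(-2s))⁻¹`, where `α`, `β` are the roots of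
`X² - c(p) X + η(p) p^(2m-1)`. -/
noncomputable def Newform.factor (P : Newform) {K : Type} [Field K] [NumberField K] (s : ℂ)
    (v : HeightOneSpectrum (𝓞 K)) : ℂ :=
  (1 - pw (coef P.f (Ideal.absNorm v.asIdeal).minFac) (P.u (Ideal.absNorm v.asIdeal).minFac)
      ((Ideal.absNorm v.asIdeal).factorization (Ideal.absNorm v.asIdeal).minFac) *
        ((Ideal.absNorm v.asIdeal : ℕ) : ℂ) ^ (-s) +
    P.u (Ideal.absNorm v.asIdeal).minFac ^
      ((Ideal.absNorm v.asIdeal).factorization (Ideal.absNorm v.asIdeal).minFac) *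
      ((Ideal.absNorm v.asIdeal : ℕ) : ℂ) ^ (-2 * s))⁻¹

/-- the same newform in the library -/
noncomputable def Newform.lib (P : Newform) : Pool.Agent.X284.KS.Newform :=
  have : NeZero P.N := ⟨P.N_ne⟩
  { N := P.N
    m := P.m
    m_pos := P.m_pos
    η := P.η
    f := P.f
    w := P.w
    newf := ⟨P.newform.one, P.newform.mul, P.newform.pow, P.newform.conj, P.newform.good,
      P.newform.bad, P.newform.neb, P.newform.norm, P.newform.fricke⟩ }

theorem pw_eq (t u : ℂ) : ∀ n : ℕ, pw t u n = Pool.Agent.X284.KS.pws t u n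
  | 0 => rfl
  | 1 => rfl
  | n + 2 => by
    rw [pw, Pool.Agent.X284.KS.pws, pw_eq t u (n + 1), pw_eq t u n]

theorem factor_eq (P : Newform) {K : Type} [Field K] [NumberField K] (s : ℂ)
    (v : HeightOneSpectrum (𝓞 K)) : P.factor s v = P.lib.factor s v := by
  unfold Newform.factor Pool.Agent.X284.KS.Newform.factor Pool.Agent.X284.KS.lf
  rw [pw_eq]
  rfl

/-- **Main theorem.** Let `f_j` be finitely many newforms of even weights `2 m_j`, levels `N_j` and
arbitrary characters, and let `t_j ≥ 0` be such that `m_j + t_j = i + 1` for all `j`.  There are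
functions `Z q`, the `L`-functions of `⨁_j V(f_j)(-t_j)` over the cyclotomic fields `ℚ(ζ_q)`, with
the following properties.

* For every `q` prime to all `N_j` and every cyclotomic field `K = ℚ(ζ_q)`, `Z q` is entire, does not
  vanish identically and is for `Re s > i + 3/2` the Euler product over all primes `v` of `K` of
  `∏_j factor (f_j) (s - t_j) v`.
* For every `ε > 0` there are `C`, `c > 0` such that for all `X ≥ 1` the number of `q ≤ X` prime to
  all `N_j` for which the order of vanishing of `Z q` at `s = i + 1` is greater than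
  `C q^(3/4 + ε)` is at most `C X exp(-c (log X)^(1/3))`.
* There are `C`, `c > 0` such that for all `X ≥ 1` the sum of the orders of vanishing of `Z q` at
  `s = i + 1` over all `q ≤ X` prime to all `N_j` is at most `C exp(-c (log X)^(1/3))` times the sum
  of the degrees `φ(q)` of the fields. -/
theorem result {ι : Type} [Fintype ι] (P : ι → Newform) (t : ι → ℕ) (i : ℕ)
    (hi : ∀ j, (P j).m + t j = i + 1) :
    ∃ Z : ℕ → ℂ → ℂ,
      (∀ q : ℕ, 1 ≤ q → Nat.Coprime q (∏ j, (P j).N) → Differentiable ℂ (Z q) ∧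
        analyticOrderAt (Z q) (i + 1) ≠ ⊤ ∧
        ∀ (K : Type) [Field K] [NumberField K] [IsCyclotomicExtension {q} ℚ K] (s : ℂ),
          (i : ℝ) + 3 / 2 < s.re →
          HasProd (fun v : HeightOneSpectrum (𝓞 K) => ∏ j, (P j).factor (s - t j) v) (Z q s)) ∧
      (∀ ε : ℝ, 0 < ε → ∃ C c : ℝ, 0 < C ∧ 0 < c ∧ ∀ X : ℕ, 1 ≤ X →
        (({q : ℕ | 1 ≤ q ∧ q ≤ X ∧ Nat.Coprime q (∏ j, (P j).N) ∧
          C * (q : ℝ) ^ (3 / 4 + ε) < analyticOrderNatAt (Z q) (i + 1)}.ncard : ℕ) : ℝ) ≤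
          C * X * Real.exp (-c * (Real.log X) ^ ((1 : ℝ) / 3))) ∧
      ∃ C c : ℝ, 0 < C ∧ 0 < c ∧ ∀ X : ℕ, 1 ≤ X →
        ((∑ q ∈ (Finset.Icc 1 X).filter (fun q => Nat.Coprime q (∏ j, (P j).N)),
          analyticOrderNatAt (Z q) (i + 1) : ℕ) : ℝ) ≤
          C * Real.exp (-c * (Real.log X) ^ ((1 : ℝ) / 3)) *
            ((∑ q ∈ (Finset.Icc 1 X).filter (fun q => Nat.Coprime q (∏ j, (P j).N)),
              q.totient : ℕ) : ℝ) := by
  classical
  obtain ⟨K0, G, Z, hGH, hZ⟩ := Pool.Agent.X284.KS.fam_K (fun j => (P j).lib) t (i + 1) hi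
  set M : ℕ := ∏ j, (P j).N with hM
  have hM1 : 1 ≤ M := Nat.one_le_iff_ne_zero.2 (Finset.prod_ne_zero_iff.2 fun j _ => (P j).N_ne)
  have hcast : (((i + 1 : ℕ) : ℕ) : ℂ) = (i : ℂ) + 1 := by push_cast; ring
  have hnat : ∀ q : ℕ, 1 ≤ q → Nat.Coprime q M →
      analyticOrderNatAt (Z q) (i + 1) = Pool.Agent.TH940.tot G q := by
    intro q hq hqM
    have h1 := (hZ q hq hqM).2.1
    rw [hcast] at h1
    unfold analyticOrderNatAt
    rw [h1]
    rfl
  refine ⟨Z, ?_, ?_, ?_⟩
  · intro q hq hqM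
    obtain ⟨h1, h2, h3⟩ := hZ q hq hqM
    refine ⟨h1, ?_, ?_⟩
    · rw [hcast] at h2
      rw [h2]
      exact ENat.natCast_ne_top _
    · intro K _ _ _ s hs
      have h4 := h3 K s (by push_cast; linarith)
      refine (congrArg (fun g => HasProd g _) (funext fun v => ?_)).mpr h4
      exact Finset.prod_congr rfl fun j _ => factor_eq (P j) _ v
  · intro ε hε
    obtain ⟨C, c, hC, hc', h⟩ := Pool.Agent.Y683.AA.moduli hGH hε
    refine ⟨C, c, hC, hc', fun X hX => ?_⟩
    have h1 : {q : ℕ | 1 ≤ q ∧ q ≤ X ∧ Nat.Coprime q M ∧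
        C * (q : ℝ) ^ (3 / 4 + ε) < analyticOrderNatAt (Z q) (i + 1)} =
        (((Finset.Icc 1 X).filter (fun q : ℕ => Nat.Coprime q M ∧
        C * (q : ℝ) ^ (3 / 4 + ε) < Pool.Agent.TH940.tot G q) : Finset ℕ) : Set ℕ) := by
      ext q
      rw [Finset.mem_coe, Finset.mem_filter, Finset.mem_Icc, Set.mem_ofPred_eq]
      constructor
      · rintro ⟨k1, k2, k3, k4⟩
        rw [hnat q k1 k3] at k4
        exact ⟨⟨k1, k2⟩, k3, k4⟩
      · rintro ⟨⟨k1, k2⟩, k3, k4⟩
        rw [← hnat q k1 k3] at k4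
        exact ⟨k1, k2, k3, k4⟩
    rw [h1, Set.ncard_coe_finset]
    exact h X hX
  · obtain ⟨C, c, hC, hc', h⟩ := Pool.Agent.X309.DC.avg_tot hM1 hGH
    refine ⟨C, c, hC, hc', fun X hX => ?_⟩
    have h1 : (∑ q ∈ (Finset.Icc 1 X).filter (fun q => Nat.Coprime q M),
        analyticOrderNatAt (Z q) (i + 1)) =
        ∑ q ∈ (Finset.Icc 1 X).filter (fun q => Nat.Coprime q M), Pool.Agent.TH940.tot G q := by
      refine Finset.sum_congr rfl fun q hq => ?_
      rw [Finset.mem_filter, Finset.mem_Icc] at hq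
      exact hnat q hq.1.1 hq.2
    rw [h1]
    exact h X hX

end Pool.Agent.Results.MP_6dc9d1_nt.KugaSatoCyclotomic
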