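import Pool.Agent.X309.KD
import Pool.Agent.Y683.Cent
import Pool.Agent.W765.HK.Pair
import Pool.Agent.W216.CY.Div
import Pool.Agent.W287.HK.Basic
import Pool.Agent.W571.HK.Cls
import Pool.Agent.W53.HK.Fp
import Pool.Agent.W366.HK.Fpr
import Pool.Agent.W585.HK.LAT
import Pool.Agent.W692.HK.Ker
import Pool.Agent.W584.HK.CNT
import Pool.Agent.W513.HK.Divr
import Pool.Agent.W822.HK.MU
import Pool.Agent.W240.HK.Count
import Pool.Agent.W856.HK.Dec
import Pool.Agent.W636.HK.Gauss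
import Pool.Agent.W348.HK.Pois

/-!
# Beilinson's conjecture in the towers of ray class fields of prime power conductor: bounds uniform
in the prime

Let `R` be the ring of integers of an imaginary quadratic field `K` of any class number.  We consider
the smooth projective varieties `X` over `K` of dimension `2 i + 1` for which the Galois representation
`H^(2i+1)(X)` is a direct sum of Hecke characters `ψ j` of `K`; their types are `(a j, b j)` with
`a j + b j = 2 i + 1` (the Hodge types).  Examples are the products of `2 i + 1` elliptic curves with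
complex multiplication by orders of `K`.

Let `P` be a prime ideal of degree one of `K`, unramified over an odd prime number `p = N(P)`, and let
`K(P^k)` be the ray class field of conductor `P^k`.  Its degree over `K` is about `p^k`, and
`L(H^(2i+1)(X_K(P^k)), s)` is the product of the functions `L(ψ j χ, s)`, with primitive characters.

Theorem: for **all** `P` and `k`, all `i ≥ 0` and all these `X`, `L(H^(2i+1)(X_K(P^k)), s)` is entire,
and its order of vanishing `r` at `s = i + 1` satisfies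

* `r ≤ C N(f₀) ∑ j, (w n)^ε (n^(2/3) + (w n)^(1/2))`,  `w = |a j - b j|`,  `n = p^k N(f₀)`, if the
  conductors of the `ψ j` divide `f₀`; `C` depends on `K` and `ε` only;
* `r ≤ C' dim H^(2i+1)(X) p^(2 + ε)`, where `C'` depends only on `K`, `ε`, `f₀` and an upper bound for the
  `|a j - b j|`: the order in the whole infinite tower of the `K(P^k)`, `k = 0, 1, 2, …`, is bounded
  by a polynomial in `p`.

So for fixed `X` the order over `K(P^k)` is at most `C_X min (N(P^k)^(2/3 + ε), N(P)^(2 + ε))`, for all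
`P` and `k`.  By Beilinson's conjecture these are bounds for the rank of `CH^(i+1)(X_K(P^k))_0`.

The input is the library theorem on the nonvanishing for the characters of large order (`GHk`).
-/

set_option autoImplicit false

open Complex IsDedekindDomain

namespace Pool.Agent.Results.MP_6dc9d1_nt.PrimePowerTowers

/-- The norm `N(I)` of an ideal (`0` for the zero ideal, whose residue ring is infinite). -/
noncomputable def norm {R : Subring ℂ} (I : Ideal R) : ℝ := (Nat.card (R ⧸ I) : ℝ)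

/-- `θ`, a function on the ideals of `R`, is a primitive Hecke character of conductor `q` and infinity
type `(a, b)`: it is multiplicative, vanishes exactly at the zero ideal and the ideals not prime to
`q`, satisfies `θ((α)) = α ^ a * conj α ^ b` for `α ≡ 1 mod q`, and this fails for every strictly
larger ideal `q'` in place of `q`.  For `a = b = 0` these are the primitive characters of finite
order. -/
structure IsHecke {R : Subring ℂ} (a b : ℕ) (q : Ideal R) (θ : Ideal R → ℂ) : Prop where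
  ne_bot : q ≠ ⊥
  mul : ∀ I J : Ideal R, θ (I * J) = θ I * θ J
  eq_zero : ∀ I : Ideal R, θ I = 0 ↔ (I = ⊥ ∨ ¬ IsCoprime I q)
  principal : ∀ α : R, α ≠ 0 → α - 1 ∈ q →
    θ (Ideal.span {α}) = (α : ℂ) ^ a * (starRingEnd ℂ) (α : ℂ) ^ b
  primitive : ∀ q' : Ideal R, q < q' → ∃ α : R, α ≠ 0 ∧ α - 1 ∈ q' ∧ IsCoprime (Ideal.span {α}) q ∧
    θ (Ideal.span {α}) ≠ (α : ℂ) ^ a * (starRingEnd ℂ) (α : ℂ) ^ b

/-- All primitive characters of finite order whose conductor divides `q`: the characters of the Galois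
group of the ray class field `K(q)`. -/
def Modulo {R : Subring ℂ} (q : Ideal R) : Set (Ideal R → ℂ) :=
  {χ | ∃ c : Ideal R, IsHecke 0 0 c χ ∧ q ≤ c}

/-- `L` is entire and it is the `L`-function over `K(q)` of the direct sum of the Hecke characters
`ψ 1, …, ψ g` of types `(a j, b j)`, `a j + b j = 2 i + 1`: for `Re s > i + 3/2` it is the product over
all primes `P` of `K`, all `j` and all characters `χ` of the Galois group of `K(q) / K` of
`(1 - θ j χ (P) N(P)^(-s))⁻¹`, where `θ j χ` is the primitive Hecke character of `ψ j * χ`. -/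
def IsLFunction {R : Subring ℂ} (i g : ℕ) (a b : Fin g → ℕ) (ψ : Fin g → Ideal R → ℂ)
    (q : Ideal R) (L : ℂ → ℂ) : Prop :=
  Differentiable ℂ L ∧ ∃ θ : Fin g → (Ideal R → ℂ) → Ideal R → ℂ,
    (∀ j, ∀ χ ∈ Modulo q, (∃ c : Ideal R, IsHecke (a j) (b j) c (θ j χ)) ∧
      ∀ I : Ideal R, ψ j I * χ I ≠ 0 → θ j χ I = ψ j I * χ I) ∧
    ∀ s : ℂ, (i : ℝ) + 3 / 2 < s.re → HasProd (fun P : HeightOneSpectrum R =>
      ∏ j, ∏ᶠ χ ∈ Modulo q, (1 - θ j χ P.asIdeal * (norm P.asIdeal : ℂ) ^ (-s))⁻¹) (L s)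

/-- `(w n)^ε (n^(2/3) + (w n)^(1/2))` -/
noncomputable def bound (ε w n : ℝ) : ℝ :=
  (w * n) ^ ε * (n ^ (2 / 3 : ℝ) + (w * n) ^ (1 / 2 : ℝ))

/-- `P` is a prime ideal of degree one, unramified over an odd prime number. -/
def IsDegreeOne {R : Subring ℂ} (P : Ideal R) : Prop :=
  P.IsPrime ∧ ∃ p : ℕ, p.Prime ∧ p ≠ 2 ∧ norm P = p ∧ (p : R) ∉ P ^ 2

theorem isHecke_iff {R : Subring ℂ} (a b : ℕ) (f : Ideal R) (ψ : Ideal R → ℂ) :
    IsHecke a b f ψ ↔ Pool.Agent.X309.HT a b f ψ :=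
  ⟨fun h => ⟨h.ne_bot, h.mul, h.eq_zero, h.principal, h.primitive⟩,
    fun h => ⟨h.ne, h.mul, h.zero, h.princ, h.prim⟩⟩

theorem isHecke_zero {R : Subring ℂ} (f : Ideal R) (ψ : Ideal R → ℂ) :
    IsHecke 0 0 f ψ ↔ Pool.Agent.W192.HK.HC 0 f ψ := by
  constructor
  · intro h
    refine ⟨h.ne_bot, h.mul, h.eq_zero, fun α h1 h2 => ?_, fun q' h1 => ?_⟩
    · rw [h.principal α h1 h2, pow_zero, pow_zero, mul_one]
    · obtain ⟨α, h2, h3, h4, h5⟩ := h.primitive q' h1
      refine ⟨α, h2, h3, h4, ?_⟩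
      rwa [pow_zero, pow_zero, mul_one, ← pow_zero (α : ℂ)] at h5
  · intro h
    refine ⟨h.ne, h.mul, h.zero, fun α h1 h2 => ?_, fun q' h1 => ?_⟩
    · rw [h.princ α h1 h2, pow_zero, pow_zero, mul_one]
    · obtain ⟨α, h2, h3, h4, h5⟩ := h.prim q' h1
      refine ⟨α, h2, h3, h4, ?_⟩
      rwa [pow_zero, pow_zero, mul_one, ← pow_zero (α : ℂ)]

/-- **Main theorem.** Let `R = ℤ + ℤ ω` be a subring of `ℂ` that is a lattice and a Dedekind domain.
For nonzero `q` there are finitely many primitive characters of finite order with a conductor dividing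
`q`.  For every `ε > 0` there is a `C` such that for every nonzero ideal `f₀` and every `W` there is a
`C'` such that for all prime ideals `P` of degree one, all `k`, all `i` and all direct sums of Hecke
characters `ψ j`, `j < g`, of types `(a j, b j)` with `a j + b j = 2 i + 1` and conductors dividing
`f₀`, the `L`-function over `K(P^k)` is entire and its order of vanishing `r` at `s = i + 1` is finite,
at most `C N(f₀) ∑ j, bound ε |a j - b j| (N(P)^k N(f₀))`, and at most `C' g N(P)^(2 + ε)` if all the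
`|a j - b j|` are at most `W`. -/
theorem result (R : Subring ℂ) (ω : ℂ) (hω : 0 < ω.im)
    (hR : ∀ z : ℂ, z ∈ R ↔ ∃ x y : ℤ, z = x + y * ω) (hded : IsDedekindDomain R) :
    (∀ q : Ideal R, q ≠ ⊥ → (Modulo q).Finite) ∧
    ∀ ε : ℝ, 0 < ε → ∃ C : ℝ, 0 < C ∧ ∀ f₀ : Ideal R, f₀ ≠ ⊥ → ∀ W : ℝ, ∃ C' : ℝ, 0 < C' ∧
      ∀ P : Ideal R, IsDegreeOne P → ∀ (k i g : ℕ) (a b : Fin g → ℕ) (ψ : Fin g → Ideal R → ℂ),
        (∀ j, a j + b j = 2 * i + 1 ∧ ∃ f : Ideal R, f₀ ≤ f ∧ IsHecke (a j) (b j) f (ψ j)) →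
        ∃ (L : ℂ → ℂ) (r : ℕ), IsLFunction i g a b ψ (P ^ k) L ∧
          analyticOrderAt L ((i : ℂ) + 1) = r ∧
          (r : ℝ) ≤ C * norm f₀ * ∑ j, bound ε |(a j : ℝ) - b j| (norm P ^ k * norm f₀) ∧
          ((∀ j, |(a j : ℝ) - b j| ≤ W) → (r : ℝ) ≤ C' * g * norm P ^ (2 + ε)) := by
  classical
  have hbasic := Pool.Agent.W287.HK.h_basic
  have hcls := Pool.Agent.W571.HK.h_cls hbasic
  have hfp := Pool.Agent.W53.HK.h_fp hbasic hcls
  have hfpr := Pool.Agent.W366.HK.h_fpr hbasic hcls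
  have hlat := Pool.Agent.W585.HK.h_lat hbasic
  have hker := Pool.Agent.W692.HK.h_ker hbasic hcls hfpr
  have hcnt := Pool.Agent.W584.HK.h_cnt hbasic hcls hfpr hlat hker
  have hdivr := Pool.Agent.W513.HK.h_divr hbasic
  have hmu := Pool.Agent.W822.HK.h_mu hbasic
  have hcount := Pool.Agent.W240.HK.h_count hbasic hcnt hdivr
  have hdiv := Pool.Agent.W216.CY.t_div
  have hdec := Pool.Agent.W856.HK.h_dec hbasic
  have hgauss := Pool.Agent.W636.HK.h_gauss hbasic hfp
  have hpois := Pool.Agent.W348.HK.h_pois hbasic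
  have htheta := Pool.Agent.TH936.HK.h_theta hbasic hfp hdec hgauss hpois hcnt
  have hafe := Pool.Agent.TH936.HK.h_afe hbasic hfp hcnt hgauss htheta
  have htail := Pool.Agent.Y683.tailz hbasic hcnt hcount
  have hmain := Pool.Agent.Y683.mainb hbasic hcnt hdivr htail
  have hdual := Pool.Agent.Y683.dualb hdiv hbasic hcnt hker hfpr
  have hfin := Pool.Agent.Y683.finb hdiv hbasic hcnt hmu hmain hdual
  have hQ : Pool.Agent.W192.HK.QR R ω := ⟨hω, hR, hded⟩
  obtain ⟨C0, hC⟩ := Pool.Agent.Y683.AA.exists_idCount hbasic hcnt hQ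
  obtain ⟨L0, hL0, K, ho⟩ := Pool.Agent.Y683.AA.exists_L hbasic hcls hcnt hfpr hfp hdec hgauss
    htheta hafe hfin hQ
  have hmod : ∀ q : Ideal R, Modulo q = Pool.Agent.Y683.AA.Dv 0 q := by
    intro q
    ext θ
    constructor
    · rintro ⟨f, h1, h2⟩
      exact ⟨f, (isHecke_zero _ _).1 h1, h2⟩
    · rintro ⟨f, h1, h2⟩
      exact ⟨f, (isHecke_zero _ _).2 h1, h2⟩
  have hfinM : ∀ q : Ideal R, q ≠ ⊥ → (Modulo q).Finite := fun q hq => by
    rw [hmod]
    exact (Pool.Agent.Y683.AA.hk_finite hbasic hcls hfp hQ hC 0 _).subset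
      (Pool.Agent.Y683.AA.dv_subset hbasic hQ 0 hq le_rfl)
  have hnn : ∀ I : Ideal R, norm I = (Pool.Agent.Y683.AA.nn I : ℝ) := fun I => rfl
  refine ⟨hfinM, fun ε hε => ?_⟩
  obtain ⟨C, hC1, h1⟩ := Pool.Agent.X309.pp_one hbasic hcls hfp hdivr hQ hC ho hε
  refine ⟨C, hC1, fun f₀ hf₀ W => ?_⟩
  obtain ⟨C', hC2, h2⟩ := Pool.Agent.X309.pp_all hbasic hcls hfp hdivr hQ hC ho hε hf₀ W
  refine ⟨C', hC2, fun P hP k i g a b ψ hψ => ?_⟩
  obtain ⟨hP1, p, hp1, hp2, hp3, hp4⟩ := hP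
  have hSp : Pool.Agent.X309.Sp P p := ⟨hp1, hp2, hP1, hp3, hp4⟩
  set q : Ideal R := P ^ k with hqdef
  have hq : q ≠ ⊥ := pow_ne_zero k (hSp.ne hbasic hQ)
  choose hab f hf0 hf using hψ
  have hfam := fun j => Pool.Agent.X309.famS hbasic hcls hfp hQ hC hL0 hq hf₀
    (m := i + 1) ((isHecke_iff _ _ _ _).1 (hf j)) (hf0 j) (by have := hab j; omega) (by omega)
  choose θ L k1 m' hm1 hm2 k2 using hfam
  have hfinq := hfinM q hq
  set A : Finset (Ideal R → ℂ) := hfinq.toFinset with hA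
  have hmemA : ∀ χ, χ ∈ A ↔ χ ∈ Pool.Agent.Y683.AA.Dv 0 q := by
    intro χ
    rw [hA, Set.Finite.mem_toFinset, hmod]
  have hana : ∀ j, ∀ χ ∈ A, AnalyticAt ℂ (L j χ) ((i : ℂ) + 1) := fun j χ hχ =>
    (k1 j χ ((hmemA χ).1 hχ)).2.2.diff.analyticAt _
  have hcast : ((i + 1 : ℕ) : ℂ) = (i : ℂ) + 1 := by push_cast; ring
  have hord : ∀ j, ∀ χ ∈ A, analyticOrderAt (L j χ) ((i : ℂ) + 1) ≠ ⊤ := by
    intro j χ hχ
    have := (k1 j χ ((hmemA χ).1 hχ)).2.2.ord
    rwa [hcast] at this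
  have hprodA := fun j => Pool.Agent.Y683.AA.orderNat_prod A (L j) (hana j) (hord j)
  have hprodA' : ∀ j, AnalyticAt ℂ (fun z => ∏ χ ∈ A, L j χ z) ((i : ℂ) + 1) := fun j =>
    (Pool.Agent.Y683.AA.order_prod A (L j) (hana j)).1
  have hprod := Pool.Agent.Y683.AA.orderNat_prod Finset.univ
    (fun j z => ∏ χ ∈ A, L j χ z) (a := (i : ℂ) + 1) (fun j _ => hprodA' j)
    fun j _ => (hprodA j).1
  have hnorm : Pool.Agent.W192.HK.nm (P ^ k * f₀) = norm P ^ k * norm f₀ := by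
    rw [Pool.Agent.Y683.AA.nm_eq, Pool.Agent.Y683.AA.nn_mul hbasic hQ,
      Pool.Agent.X309.nn_pow hbasic hQ, Nat.cast_mul, Nat.cast_pow, hnn, hnn]
  have hsumj : ∀ j, ∑ χ ∈ A, analyticOrderNatAt (L j χ) ((i : ℂ) + 1) ≤
      ∑ᶠ θ ∈ Pool.Agent.Y683.AA.Dv (m' j) (P ^ k * f₀),
        analyticOrderNatAt (L0 (m' j) θ) (m' j : ℂ) := by
    intro j
    have k5 := k2 j
    rw [← hmod, finsum_mem_eq_finite_toFinset_sum _ hfinq, hcast] at k5
    exact k5
  refine ⟨fun s => ∏ j, ∏ χ ∈ A, L j χ s,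
    analyticOrderNatAt (fun s => ∏ j, ∏ χ ∈ A, L j χ s) ((i : ℂ) + 1), ⟨?_, θ, ?_, ?_⟩, ?_, ?_, ?_⟩
  · refine Differentiable.fun_finsetProd fun j _ => ?_
    exact Differentiable.fun_finsetProd fun χ hχ => (k1 j χ ((hmemA χ).1 hχ)).2.2.diff
  · intro j χ hχ
    rw [hmod] at hχ
    obtain ⟨⟨c', k3⟩, k4, -⟩ := k1 j χ hχ
    exact ⟨⟨c', (isHecke_iff _ _ _ _).2 k3⟩, k4⟩
  · intro s hs
    have hfp' : ∀ (j : Fin g) (P : HeightOneSpectrum R),
        ∏ᶠ χ ∈ Modulo q, (1 - θ j χ P.asIdeal * (norm P.asIdeal : ℂ) ^ (-s))⁻¹ =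
        ∏ χ ∈ A, (1 - θ j χ P.asIdeal * (norm P.asIdeal : ℂ) ^ (-s))⁻¹ := fun j P => by
      rw [finprod_mem_eq_finite_toFinset_prod _ hfinq]
    simp only [hfp']
    refine hasProd_prod fun j _ => ?_
    refine hasProd_prod fun χ hχ => ?_
    obtain ⟨⟨c', k3⟩, -, k4⟩ := k1 j χ ((hmemA χ).1 hχ)
    refine Pool.Agent.X309.euler hbasic hQ k3 s _ (k4.sum s ?_)
    push_cast
    linarith
  · exact (Nat.cast_analyticOrderNatAt hprod.1).symm
  · rw [hprod.2, Nat.cast_sum, Finset.mul_sum]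
    refine Finset.sum_le_sum fun j _ => ?_
    rw [(hprodA j).2]
    have k5 : ((∑ χ ∈ A, analyticOrderNatAt (L j χ) ((i : ℂ) + 1) : ℕ) : ℝ) ≤
        ((∑ᶠ θ ∈ Pool.Agent.Y683.AA.Dv (m' j) (P ^ k * f₀),
          analyticOrderNatAt (L0 (m' j) θ) (m' j : ℂ) : ℕ) : ℝ) := by exact_mod_cast hsumj j
    refine k5.trans ((h1 P f₀ p k (m' j) hSp hf₀ (hm1 j)).trans ?_)
    rw [hnorm, hnn f₀]
    refine mul_le_mul_of_nonneg_left ?_ (by positivity)
    exact Pool.Agent.X309.bnd_mono hε (by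
      have h3 : (0 : ℝ) ≤ norm P := Nat.cast_nonneg _
      positivity) (hm2 j)
  · intro hW
    rw [hprod.2, Nat.cast_sum]
    have hterm : ∀ j ∈ (Finset.univ : Finset (Fin g)),
        ((analyticOrderNatAt (fun z => ∏ χ ∈ A, L j χ z) ((i : ℂ) + 1) : ℕ) : ℝ) ≤
          C' * norm P ^ (2 + ε) := by
      intro j _
      rw [(hprodA j).2]
      have k5 : ((∑ χ ∈ A, analyticOrderNatAt (L j χ) ((i : ℂ) + 1) : ℕ) : ℝ) ≤
          ((∑ᶠ θ ∈ Pool.Agent.Y683.AA.Dv (m' j) (P ^ k * f₀),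
            analyticOrderNatAt (L0 (m' j) θ) (m' j : ℂ) : ℕ) : ℝ) := by exact_mod_cast hsumj j
      refine k5.trans ((h2 P p k (m' j) hSp (hm1 j) ((hm2 j).trans (hW j))).trans ?_)
      rw [hp3]
    refine (Finset.sum_le_sum hterm).trans ?_
    rw [Finset.sum_const, Finset.card_univ, Fintype.card_fin, nsmul_eq_mul]
    exact le_of_eq (by ring)

end Pool.Agent.Results.MP_6dc9d1_nt.PrimePowerTowers
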