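import Pool.Agent.X309.BB2
import Pool.Agent.Y683.Cent
import Pool.Agent.W765.HK.Pair
import Pool.Agent.W216.CY.Div
import Pool.Agent.W287.HK.Basic
import Pool.Agent.W571.HK.Cls
import Pool.Agent.W53.HK.Fp
import Pool.Agent.W366.HK.Fpr
import Pool.Agent.W585.HK.LAT
import Pool.Agent.W692.HK.Ker
import Pool.Agent.W584.HK.CNT
import Pool.Agent.W513.HK.Divr
import Pool.Agent.W822.HK.MU
import Pool.Agent.W240.HK.Count
import Pool.Agent.W856.HK.Dec
import Pool.Agent.W636.HK.Gauss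
import Pool.Agent.W348.HK.Pois

/-!
# Beilinson's conjecture over ray class fields: a power saving for the analytic side

Let `R` be the ring of integers of an imaginary quadratic field `K` of any class number.  We consider
the smooth projective varieties `X` over `K` of dimension `2 i + 1` for which the Galois representation
`H^(2i+1)(X)` is a direct sum of Hecke characters `ψ j` of `K`; their types are `(a j, b j)` with
`a j + b j = 2 i + 1` (the Hodge types).  Examples are the products of `2 i + 1` elliptic curves with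
complex multiplication by orders of `K`.

Let `K(q)` be the ray class field of conductor `q`.  Its degree over `K` is the number of the primitive
characters `χ` of finite order whose conductor divides `q`, at least `#(R / q)ˣ / #Rˣ`, and
`L(H^(2i+1)(X_K(q)), s)` is the product of the functions `L(ψ j χ, s)`, with primitive characters.

Theorem: let `f₀` be a nonzero ideal and `ε > 0`.  For all ideals `q` of norm at most `T` with at most
`C N(f₀) T exp(-c (log T)^(1/3))` exceptions, the following holds simultaneously for **all** `i ≥ 0`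
and **all** these `X` (with conductors of the `ψ j` dividing `f₀`): `L(H^(2i+1)(X_K(q)), s)` is entire,
and its order of vanishing at `s = i + 1` is at most

  `C ∑ j, (w n)^ε (n^(2/3) + (w n)^(1/2))`,  `w = |a j - b j|`,  `n = N(q) N(f₀)`.

So for fixed `X` the order over `K(q)` is at most `C_X N(q)^(2/3 + ε)`, while the degree of `K(q)` is
about `N(q)`, and the same holds for instance for all powers `E ^ (2 i + 1)` with `2 i + 1 ≤ N(q)^(1/3)`
of one elliptic curve at the same time, with the constant `C dim H^(2i+1)(X)`.  By Beilinson's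
conjecture these are bounds for the rank of `CH^(i+1)(X_K(q))_0`.

The input is the library theorem `pw_main` on the characters of type `(n, 0)`.
-/

set_option autoImplicit false

open Complex IsDedekindDomain

namespace Pool.Agent.Results.MP_6dc9d1_nt.RayClassFields

/-- The norm `N(I)` of an ideal (`0` for the zero ideal, whose residue ring is infinite). -/
noncomputable def norm {R : Subring ℂ} (I : Ideal R) : ℝ := (Nat.card (R ⧸ I) : ℝ)

/-- `θ`, a function on the ideals of `R`, is a primitive Hecke character of conductor `q` and infinity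
type `(a, b)`: it is multiplicative, vanishes exactly at the zero ideal and the ideals not prime to
`q`, satisfies `θ((α)) = α ^ a * conj α ^ b` for `α ≡ 1 mod q`, and this fails for every strictly
larger ideal `q'` in place of `q`.  For `a = b = 0` these are the primitive characters of finite
order. -/
structure IsHecke {R : Subring ℂ} (a b : ℕ) (q : Ideal R) (θ : Ideal R → ℂ) : Prop where
  ne_bot : q ≠ ⊥
  mul : ∀ I J : Ideal R, θ (I * J) = θ I * θ J
  eq_zero : ∀ I : Ideal R, θ I = 0 ↔ (I = ⊥ ∨ ¬ IsCoprime I q)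
  principal : ∀ α : R, α ≠ 0 → α - 1 ∈ q →
    θ (Ideal.span {α}) = (α : ℂ) ^ a * (starRingEnd ℂ) (α : ℂ) ^ b
  primitive : ∀ q' : Ideal R, q < q' → ∃ α : R, α ≠ 0 ∧ α - 1 ∈ q' ∧ IsCoprime (Ideal.span {α}) q ∧
    θ (Ideal.span {α}) ≠ (α : ℂ) ^ a * (starRingEnd ℂ) (α : ℂ) ^ b

/-- All primitive characters of finite order whose conductor divides `q`: the characters of the Galois
group of the ray class field `K(q)`. -/
def Modulo {R : Subring ℂ} (q : Ideal R) : Set (Ideal R → ℂ) :=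
  {χ | ∃ c : Ideal R, IsHecke 0 0 c χ ∧ q ≤ c}

/-- `L` is entire and it is the `L`-function over `K(q)` of the direct sum of the Hecke characters
`ψ 1, …, ψ g` of types `(a j, b j)`, `a j + b j = 2 i + 1`: for `Re s > i + 3/2` it is the product over
all primes `P` of `K`, all `j` and all characters `χ` of the Galois group of `K(q) / K` of
`(1 - θ j χ (P) N(P)^(-s))⁻¹`, where `θ j χ` is the primitive Hecke character of `ψ j * χ`. -/
def IsLFunction {R : Subring ℂ} (i g : ℕ) (a b : Fin g → ℕ) (ψ : Fin g → Ideal R → ℂ)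
    (q : Ideal R) (L : ℂ → ℂ) : Prop :=
  Differentiable ℂ L ∧ ∃ θ : Fin g → (Ideal R → ℂ) → Ideal R → ℂ,
    (∀ j, ∀ χ ∈ Modulo q, (∃ c : Ideal R, IsHecke (a j) (b j) c (θ j χ)) ∧
      ∀ I : Ideal R, ψ j I * χ I ≠ 0 → θ j χ I = ψ j I * χ I) ∧
    ∀ s : ℂ, (i : ℝ) + 3 / 2 < s.re → HasProd (fun P : HeightOneSpectrum R =>
      ∏ j, ∏ᶠ χ ∈ Modulo q, (1 - θ j χ P.asIdeal * (norm P.asIdeal : ℂ) ^ (-s))⁻¹) (L s)

/-- `(w n)^ε (n^(2/3) + (w n)^(1/2))` -/
noncomputable def bound (ε w n : ℝ) : ℝ :=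
  (w * n) ^ ε * (n ^ (2 / 3 : ℝ) + (w * n) ^ (1 / 2 : ℝ))

/-- `q` is good: for all `i` and all direct sums of Hecke characters `ψ j` of types `(a j, b j)` with
`a j + b j = 2 i + 1` and conductors dividing `f₀`, the `L`-function over `K(q)` is entire and its
order of vanishing `r` at `s = i + 1` is finite and at most
`C ∑ j, bound ε |a j - b j| (N(q) N(f₀))`. -/
def Good {R : Subring ℂ} (f₀ : Ideal R) (ε C : ℝ) (q : Ideal R) : Prop :=
  ∀ (i g : ℕ) (a b : Fin g → ℕ) (ψ : Fin g → Ideal R → ℂ),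
    (∀ j, a j + b j = 2 * i + 1 ∧ ∃ f : Ideal R, f₀ ≤ f ∧ IsHecke (a j) (b j) f (ψ j)) →
    ∃ (L : ℂ → ℂ) (r : ℕ), IsLFunction i g a b ψ q L ∧ analyticOrderAt L ((i : ℂ) + 1) = r ∧
      (r : ℝ) ≤ C * ∑ j, bound ε |(a j : ℝ) - b j| (norm q * norm f₀)

theorem isHecke_iff {R : Subring ℂ} (a b : ℕ) (f : Ideal R) (ψ : Ideal R → ℂ) :
    IsHecke a b f ψ ↔ Pool.Agent.X309.HT a b f ψ :=
  ⟨fun h => ⟨h.ne_bot, h.mul, h.eq_zero, h.principal, h.primitive⟩,
    fun h => ⟨h.ne, h.mul, h.zero, h.princ, h.prim⟩⟩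

theorem isHecke_zero {R : Subring ℂ} (f : Ideal R) (ψ : Ideal R → ℂ) :
    IsHecke 0 0 f ψ ↔ Pool.Agent.W192.HK.HC 0 f ψ := by
  constructor
  · intro h
    refine ⟨h.ne_bot, h.mul, h.eq_zero, fun α h1 h2 => ?_, fun q' h1 => ?_⟩
    · rw [h.principal α h1 h2, pow_zero, pow_zero, mul_one]
    · obtain ⟨α, h2, h3, h4, h5⟩ := h.primitive q' h1
      refine ⟨α, h2, h3, h4, ?_⟩
      rwa [pow_zero, pow_zero, mul_one, ← pow_zero (α : ℂ)] at h5
  · intro h
    refine ⟨h.ne, h.mul, h.zero, fun α h1 h2 => ?_, fun q' h1 => ?_⟩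
    · rw [h.princ α h1 h2, pow_zero, pow_zero, mul_one]
    · obtain ⟨α, h2, h3, h4, h5⟩ := h.prim q' h1
      refine ⟨α, h2, h3, h4, ?_⟩
      rwa [pow_zero, pow_zero, mul_one, ← pow_zero (α : ℂ)]

/-- **Main theorem.** Let `R = ℤ + ℤ ω` be a subring of `ℂ` that is a lattice and a Dedekind domain.
For nonzero `q` there are finitely many primitive characters of finite order with a conductor dividing
`q`, at least `#(R / q)ˣ / #Rˣ` if `N(q) > 4`.  For every `ε > 0` there are `C`, `c > 0` such that for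
all nonzero ideals `f₀` and all `T ≥ 1` all nonzero ideals `q` of norm at most `T` are good, with at
most `C N(f₀) T exp(-c (log T)^(1/3))` exceptions. -/
theorem result (R : Subring ℂ) (ω : ℂ) (hω : 0 < ω.im)
    (hR : ∀ z : ℂ, z ∈ R ↔ ∃ x y : ℤ, z = x + y * ω) (hded : IsDedekindDomain R) :
    (∀ q : Ideal R, q ≠ ⊥ → (Modulo q).Finite) ∧
    (∀ q : Ideal R, q ≠ ⊥ → 4 < norm q →
      Nat.card (R ⧸ q)ˣ ≤ (Modulo q).ncard * Nat.card Rˣ) ∧
    ∀ ε : ℝ, 0 < ε → ∃ C c : ℝ, 0 < C ∧ 0 < c ∧ ∀ f₀ : Ideal R, f₀ ≠ ⊥ → ∀ T : ℕ, 1 ≤ T →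
      {q : Ideal R | q ≠ ⊥ ∧ norm q ≤ T ∧ ¬ Good f₀ ε C q}.Finite ∧
      ({q : Ideal R | q ≠ ⊥ ∧ norm q ≤ T ∧ ¬ Good f₀ ε C q}.ncard : ℝ) ≤
        C * norm f₀ * T * Real.exp (-c * (Real.log T) ^ ((1 : ℝ) / 3)) := by
  classical
  have hbasic := Pool.Agent.W287.HK.h_basic
  have hcls := Pool.Agent.W571.HK.h_cls hbasic
  have hfp := Pool.Agent.W53.HK.h_fp hbasic hcls
  have hfpr := Pool.Agent.W366.HK.h_fpr hbasic hcls
  have hlat := Pool.Agent.W585.HK.h_lat hbasic
  have hker := Pool.Agent.W692.HK.h_ker hbasic hcls hfpr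
  have hcnt := Pool.Agent.W584.HK.h_cnt hbasic hcls hfpr hlat hker
  have hdivr := Pool.Agent.W513.HK.h_divr hbasic
  have hmu := Pool.Agent.W822.HK.h_mu hbasic
  have hcount := Pool.Agent.W240.HK.h_count hbasic hcnt hdivr
  have hdiv := Pool.Agent.W216.CY.t_div
  have hdec := Pool.Agent.W856.HK.h_dec hbasic
  have hgauss := Pool.Agent.W636.HK.h_gauss hbasic hfp
  have hpois := Pool.Agent.W348.HK.h_pois hbasic
  have htheta := Pool.Agent.TH936.HK.h_theta hbasic hfp hdec hgauss hpois hcnt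
  have hafe := Pool.Agent.TH936.HK.h_afe hbasic hfp hcnt hgauss htheta
  have htail := Pool.Agent.Y683.tailz hbasic hcnt hcount
  have hmain := Pool.Agent.Y683.mainb hbasic hcnt hdivr htail
  have hdual := Pool.Agent.Y683.dualb hdiv hbasic hcnt hker hfpr
  have hfin := Pool.Agent.Y683.finb hdiv hbasic hcnt hmu hmain hdual
  have hQ : Pool.Agent.W192.HK.QR R ω := ⟨hω, hR, hded⟩
  obtain ⟨C0, hC⟩ := Pool.Agent.Y683.AA.exists_idCount hbasic hcnt hQ
  obtain ⟨L0, hL0, K, ho⟩ := Pool.Agent.Y683.AA.exists_L hbasic hcls hcnt hfpr hfp hdec hgauss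
    htheta hafe hfin hQ
  have hmod : ∀ q : Ideal R, Modulo q = Pool.Agent.Y683.AA.Dv 0 q := by
    intro q
    ext θ
    constructor
    · rintro ⟨f, h1, h2⟩
      exact ⟨f, (isHecke_zero _ _).1 h1, h2⟩
    · rintro ⟨f, h1, h2⟩
      exact ⟨f, (isHecke_zero _ _).2 h1, h2⟩
  have hfinM : ∀ q : Ideal R, q ≠ ⊥ → (Modulo q).Finite := fun q hq => by
    rw [hmod]
    exact (Pool.Agent.Y683.AA.hk_finite hbasic hcls hfp hQ hC 0 _).subset
      (Pool.Agent.Y683.AA.dv_subset hbasic hQ 0 hq le_rfl)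
  have hnn : ∀ I : Ideal R, norm I = (Pool.Agent.Y683.AA.nn I : ℝ) := fun I => rfl
  refine ⟨hfinM, fun q hq h4 => ?_, fun ε hε => ?_⟩
  · rw [hmod]
    refine Pool.Agent.Y683.AA.count_dvd hbasic hcls hfp hQ hC 0 hq ?_
    rw [hnn] at h4
    exact_mod_cast h4
  obtain ⟨C, c, hC1, hc1, h1⟩ := Pool.Agent.Y683.AA.pw_main hbasic hcls hfp hdivr hQ hC ho hε
  refine ⟨C, c, hC1, hc1, fun f₀ hf₀ T hT => ?_⟩
  have hN := Pool.Agent.Y683.AA.nn_pos hbasic hQ hf₀
  have hNT : 1 ≤ Pool.Agent.Y683.AA.nn f₀ * T := Nat.one_le_iff_ne_zero.2 (by positivity)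
  obtain ⟨h2, h3⟩ := h1 (Pool.Agent.Y683.AA.nn f₀ * T) hNT
  set S : Set (Ideal R) := {q : Ideal R | q ≠ ⊥ ∧
      Pool.Agent.Y683.AA.nn q ≤ Pool.Agent.Y683.AA.nn f₀ * T ∧ ∃ m : ℕ, 1 ≤ m ∧
        C * Pool.Agent.Y683.AA.bnd ε m (Pool.Agent.W192.HK.nm q) <
          ((∑ᶠ θ ∈ Pool.Agent.Y683.AA.Dv m q,
            analyticOrderNatAt (L0 m θ) (m : ℂ) : ℕ) : ℝ)} with hS
  set B : Set (Ideal R) := {q : Ideal R | q ≠ ⊥ ∧ norm q ≤ T ∧ ¬ Good f₀ ε C q} with hB
  have hmaps : Set.MapsTo (fun q : Ideal R => q * f₀) B S := by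
    rintro q ⟨hq, hqT, hbad⟩
    have hqf : q * f₀ ≠ ⊥ := mul_ne_zero hq hf₀
    have hqT' : Pool.Agent.Y683.AA.nn q ≤ T := by
      have : ((Nat.card (R ⧸ q) : ℕ) : ℝ) ≤ T := hqT
      exact_mod_cast this
    by_contra hcon
    apply hbad
    have hgood : ∀ m : ℕ, 1 ≤ m → ((∑ᶠ θ ∈ Pool.Agent.Y683.AA.Dv m (q * f₀),
        analyticOrderNatAt (L0 m θ) (m : ℂ) : ℕ) : ℝ) ≤
          C * Pool.Agent.Y683.AA.bnd ε m (Pool.Agent.W192.HK.nm (q * f₀)) := by
      intro m hm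
      by_contra hlt
      refine hcon ⟨hqf, ?_, m, hm, not_le.1 hlt⟩
      change Pool.Agent.Y683.AA.nn (q * f₀) ≤ _
      rw [Pool.Agent.Y683.AA.nn_mul hbasic hQ, mul_comm]
      exact Nat.mul_le_mul_left _ hqT'
    intro i g a b ψ hψ
    choose hab f hf0 hf using hψ
    have hfam := fun j => Pool.Agent.X309.fam hbasic hcls hfp hQ hC hL0 hq hf₀ hC1.le hε hgood
      (m := i + 1) ((isHecke_iff _ _ _ _).1 (hf j)) (hf0 j) (by have := hab j; omega) (by omega)
    choose θ L k1 k2 using hfam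
    have hfinq := hfinM q hq
    set A : Finset (Ideal R → ℂ) := hfinq.toFinset with hA
    have hmemA : ∀ χ, χ ∈ A ↔ χ ∈ Pool.Agent.Y683.AA.Dv 0 q := by
      intro χ
      rw [hA, Set.Finite.mem_toFinset, hmod]
    have hana : ∀ j, ∀ χ ∈ A, AnalyticAt ℂ (L j χ) ((i : ℂ) + 1) := fun j χ hχ =>
      (k1 j χ ((hmemA χ).1 hχ)).2.2.diff.analyticAt _
    have hcast : ((i + 1 : ℕ) : ℂ) = (i : ℂ) + 1 := by push_cast; ring
    have hord : ∀ j, ∀ χ ∈ A, analyticOrderAt (L j χ) ((i : ℂ) + 1) ≠ ⊤ := by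
      intro j χ hχ
      have := (k1 j χ ((hmemA χ).1 hχ)).2.2.ord
      rwa [hcast] at this
    have hprodA := fun j => Pool.Agent.Y683.AA.orderNat_prod A (L j) (hana j) (hord j)
    have hprodA' : ∀ j, AnalyticAt ℂ (fun z => ∏ χ ∈ A, L j χ z) ((i : ℂ) + 1) := fun j =>
      (Pool.Agent.Y683.AA.order_prod A (L j) (hana j)).1
    have hprod := Pool.Agent.Y683.AA.orderNat_prod Finset.univ
      (fun j z => ∏ χ ∈ A, L j χ z) (a := (i : ℂ) + 1) (fun j _ => hprodA' j)
      fun j _ => (hprodA j).1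
    refine ⟨fun s => ∏ j, ∏ χ ∈ A, L j χ s,
      analyticOrderNatAt (fun s => ∏ j, ∏ χ ∈ A, L j χ s) ((i : ℂ) + 1), ⟨?_, θ, ?_, ?_⟩, ?_, ?_⟩
    · refine Differentiable.fun_finsetProd fun j _ => ?_
      exact Differentiable.fun_finsetProd fun χ hχ => (k1 j χ ((hmemA χ).1 hχ)).2.2.diff
    · intro j χ hχ
      rw [hmod] at hχ
      obtain ⟨⟨c', k3⟩, k4, -⟩ := k1 j χ hχ
      exact ⟨⟨c', (isHecke_iff _ _ _ _).2 k3⟩, k4⟩
    · intro s hs
      have hfp' : ∀ (j : Fin g) (P : HeightOneSpectrum R),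
          ∏ᶠ χ ∈ Modulo q, (1 - θ j χ P.asIdeal * (norm P.asIdeal : ℂ) ^ (-s))⁻¹ =
          ∏ χ ∈ A, (1 - θ j χ P.asIdeal * (norm P.asIdeal : ℂ) ^ (-s))⁻¹ := fun j P => by
        rw [finprod_mem_eq_finite_toFinset_prod _ hfinq]
      simp only [hfp']
      refine hasProd_prod fun j _ => ?_
      refine hasProd_prod fun χ hχ => ?_
      obtain ⟨⟨c', k3⟩, -, k4⟩ := k1 j χ ((hmemA χ).1 hχ)
      refine Pool.Agent.X309.euler hbasic hQ k3 s _ (k4.sum s ?_)
      push_cast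
      linarith
    · exact (Nat.cast_analyticOrderNatAt hprod.1).symm
    · rw [hprod.2, Nat.cast_sum, Finset.mul_sum]
      refine Finset.sum_le_sum fun j _ => ?_
      rw [(hprodA j).2]
      have k5 := k2 j
      rw [← hmod, finsum_mem_eq_finite_toFinset_sum _ hfinq, hcast] at k5
      have k6 : Pool.Agent.W192.HK.nm (q * f₀) = norm q * norm f₀ := by
        rw [Pool.Agent.Y683.AA.nm_eq, Pool.Agent.Y683.AA.nn_mul hbasic hQ, Nat.cast_mul, hnn, hnn]
      rw [k6] at k5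
      exact k5
  have hinj : Set.InjOn (fun q : Ideal R => q * f₀) B := by
    intro q _ q' _ h
    exact mul_right_cancel₀ (show f₀ ≠ 0 from hf₀) h
  refine ⟨Set.Finite.of_injOn hmaps hinj h2, ?_⟩
  have h4 : (B.ncard : ℝ) ≤ S.ncard := by
    exact_mod_cast Set.ncard_le_ncard_of_injOn _ hmaps hinj h2
  have h8 : Real.exp (-c * Pool.Agent.Y683.AA.cr (Pool.Agent.Y683.AA.nn f₀ * T)) ≤
      Real.exp (-c * Pool.Agent.Y683.AA.cr T) := by
    refine Real.exp_le_exp.2 ?_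
    have := Pool.Agent.Y683.AA.cr_mono hT (Nat.le_mul_of_pos_left T hN)
    nlinarith
  calc (B.ncard : ℝ) ≤ S.ncard := h4
    _ ≤ C * ((Pool.Agent.Y683.AA.nn f₀ * T : ℕ) : ℝ) *
        Real.exp (-c * Pool.Agent.Y683.AA.cr (Pool.Agent.Y683.AA.nn f₀ * T)) := h3
    _ ≤ C * ((Pool.Agent.Y683.AA.nn f₀ * T : ℕ) : ℝ) *
        Real.exp (-c * Pool.Agent.Y683.AA.cr T) := by gcongr
    _ = C * norm f₀ * T * Real.exp (-c * (Real.log T) ^ ((1 : ℝ) / 3)) := by
        rw [Nat.cast_mul, hnn]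
        unfold Pool.Agent.Y683.AA.cr
        ring

end Pool.Agent.Results.MP_6dc9d1_nt.RayClassFields
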